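import Pool.Agent.H32.Ent2

set_option autoImplicit false

namespace Pool.Agent.Results.MP_c130e3_pr.EntWindow

open Filter Topology Pool.Agent.H32.Cut

noncomputable section

section defs

variable {V : Type} [Fintype V] [DecidableEq V] (K : Matrix V V ℝ)

/-- Heat kernel `H_t = exp (t (K - I))` of the continuous-time chain with jump matrix `K`. -/
def heat (t : ℝ) (x y : V) : ℝ := ∑' j : ℕ, Real.exp (-t) * t ^ j / j.factorial * (K ^ j) x y

/-- Worst-case relative entropy of `H_t(x,·)` with respect to the uniform distribution. -/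
def dEnt (t : ℝ) : ℝ :=
  ⨆ x : V, ∑ y, heat K t x y * Real.log (heat K t x y / (1 / (Fintype.card V : ℝ)))

/-- Mixing time `inf {t ≥ 0 : d(t) ≤ ε}`. -/
def tmix (ε : ℝ) : ℝ := sInf {t : ℝ | 0 ≤ t ∧ dEnt K t ≤ ε}

/-- Spectral gap: one minus the largest eigenvalue having an eigenvector of mean zero. -/
def gap : ℝ := 1 - sSup {c : ℝ | ∃ f : V → ℝ, f ≠ 0 ∧ ∑ x, f x = 0 ∧ K.mulVec f = c • f}

end defs

theorem result :
    ∃ (V : ℕ → Type) (_ : ∀ n, Fintype (V n)) (_ : ∀ n, DecidableEq (V n))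
      (K : ∀ n, Matrix (V n) (V n) ℝ),
      (∀ n x y, 0 < K n x y ∧ K n x y = K n y x) ∧ (∀ n x, ∑ y, K n x y = 1) ∧
      (∀ n, 0 < gap (K n)) ∧
      Tendsto (fun n => dEnt (K n) 0) atTop atTop ∧
      ∀ ε : ℝ, 0 < ε →
        Tendsto (fun n => gap (K n) * tmix (K n) ε) atTop atTop ∧
        (∀ δ : ℝ, 0 < δ → δ < 1 →
          Tendsto (fun n => dEnt (K n) ((1 + δ) * tmix (K n) ε)) atTop (𝓝 0) ∧
          Tendsto (fun n => dEnt (K n) ((1 - δ) * tmix (K n) ε)) atTop atTop) ∧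
        (∀ c : ℝ, ∀ᶠ n in atTop, 0 ≤ tmix (K n) ε + c * (gap (K n))⁻¹ ∧
          dEnt (K n) (tmix (K n) ε + c * (gap (K n))⁻¹) ≤ 8 * (ε + 1)) := by
  obtain ⟨G, i1, i2, i3, κ, c, L, T, h1, h2, h3, h4⟩ := exists_fam
  have e : ∀ n, dEnt (M (κ n)) = fun t => kl (ht (κ n) t) := by
    intro n
    funext t
    have e1 : ∀ x y, heat (M (κ n)) t x y = ht (κ n) t (y - x) := fun x y => by
      simp only [heat, ht, po, M_pow]
    simp only [dEnt, e1, kl_sub, ciSup_const]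
  have hg : ∀ n, 3 / 4 ≤ gap (M (κ n)) := fun n => by
    have : sSup {c : ℝ | ∃ f : G n → ℝ, f ≠ 0 ∧ ∑ x, f x = 0 ∧ (M (κ n)).mulVec f = c • f} ≤ 1 / 4 :=
      Real.sSup_le (fun _ ⟨f, a1, a2, a3⟩ => (le_abs_self _).trans ((h1 n).eig f _ a1 a2 a3))
        (by norm_num)
    unfold gap
    linarith
  refine ⟨G, i2, i3, fun n => M (κ n), fun n x y => ⟨(h1 n).pos _, ?_⟩, fun n x => ?_,
    fun n => by linarith [hg n], ?_⟩
  · simp only [M, Matrix.of_apply]
    rw [← (h1 n).symm, neg_sub]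
  · rw [← (h1 n).prob.2]
    exact Fintype.sum_equiv (Equiv.subRight x) _ _ fun _ => rfl
  · simp only [tmix, e]
    exact asym h2 hg h3 h4

end

end Pool.Agent.Results.MP_c130e3_pr.EntWindow
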